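import Mathlib

/-!
# The open unit square is paradoxical under `SL(2, ℝ)`: valuations, labels
-/

set_option autoImplicit false

namespace Pool.Agent.NH23.Sq

/-- a valuation of the field of real numbers above the prime `13` -/
lemma exists_val : ∃ B : ValuationSubring ℝ, B.valuation (13 : ℝ) < 1 ∧
    (∀ n : ℤ, B.valuation (n : ℝ) ≤ 1) ∧
    ∀ n : ℤ, ¬ (13 : ℤ) ∣ n → B.valuation (n : ℝ) = 1 := by
  let A : Subring ℝ := (Int.castRingHom ℝ).range
  have h13 : (13 : ℝ) ∈ A := ⟨13, by norm_num⟩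
  let t : A := ⟨13, h13⟩
  have hI : Ideal.span {t} ≠ ⊤ := by
    intro h
    have h1 : (1 : A) ∈ Ideal.span {t} := by rw [h]; trivial
    obtain ⟨a, ha⟩ := Ideal.mem_span_singleton'.1 h1
    obtain ⟨n, hn⟩ := a.2
    have h2 : ((n : ℤ) : ℝ) * 13 = 1 := by
      have h3 := congrArg (fun z : A => (z : ℝ)) ha
      simp only [Subring.coe_mul, Subring.coe_one] at h3
      rw [← hn] at h3
      exact h3
    have h3 : n * 13 = 1 := by exact_mod_cast h2
    omega
  obtain ⟨B, hAB, hB⟩ := Ideal.image_subset_nonunits_valuationSubring _ hI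
  have hint : ∀ n : ℤ, B.valuation (n : ℝ) ≤ 1 := fun n => by
    rw [ValuationSubring.valuation_le_one_iff]
    exact hAB ⟨n, rfl⟩
  have hlt : B.valuation (13 : ℝ) < 1 := by
    rw [← ValuationSubring.mem_nonunits_iff]
    exact hB ⟨t, Ideal.subset_span rfl, rfl⟩
  refine ⟨B, hlt, hint, fun n hn => ?_⟩
  have hco : IsCoprime (13 : ℤ) n := by
    rw [Prime.coprime_iff_not_dvd (by norm_num : Prime (13 : ℤ))]
    exact hn
  obtain ⟨a, b, hab⟩ := hco
  refine le_antisymm (hint n) ?_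
  by_contra hcon
  rw [not_le] at hcon
  have h1 : B.valuation (((a : ℤ) : ℝ) * 13 + ((b : ℤ) : ℝ) * n) < 1 := by
    refine lt_of_le_of_lt (B.valuation.map_add _ _) (max_lt ?_ ?_)
    · rw [map_mul]
      exact lt_of_le_of_lt (mul_le_of_le_one_left' (hint a)) hlt
    · rw [map_mul]
      exact lt_of_le_of_lt (mul_le_of_le_one_left' (hint b)) hcon
  have h2 : ((a : ℤ) : ℝ) * 13 + ((b : ℤ) : ℝ) * n = 1 := by exact_mod_cast hab
  rw [h2, map_one] at h1
  exact lt_irrefl _ h1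

section lab

variable {Γ : Type*} [LinearOrderedCommGroupWithZero Γ] (v : Valuation ℝ Γ)
  (h13 : v (13 : ℝ) < 1) (hint : ∀ n : ℤ, v (n : ℝ) ≤ 1)
  (hunit : ∀ n : ℤ, ¬ (13 : ℤ) ∣ n → v (n : ℝ) = 1)

include hint in
lemma lin_le (a b : ℤ) {x y : ℝ} {m : Γ} (hx : v x ≤ m) (hy : v y ≤ m) :
    v ((a : ℝ) * x + b * y) ≤ m := by
  refine (v.map_add _ _).trans (max_le ?_ ?_)
  · rw [map_mul]
    exact (mul_le_of_le_one_left' (hint a)).trans hx
  · rw [map_mul]
    exact (mul_le_of_le_one_left' (hint b)).trans hy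

include hint in
lemma lin_lt (a b : ℤ) {x y : ℝ} {m : Γ} (hx : v x < m) (hy : v y < m) :
    v ((a : ℝ) * x + b * y) < m := by
  refine lt_of_le_of_lt (v.map_add _ _) (max_lt ?_ ?_)
  · rw [map_mul]
    exact lt_of_le_of_lt (mul_le_of_le_one_left' (hint a)) hx
  · rw [map_mul]
    exact lt_of_le_of_lt (mul_le_of_le_one_left' (hint b)) hy

include h13 in
lemma small {t : ℝ} {m : Γ} (hm : 0 < m) (ht : v t ≤ m) : v (13 * t) < m := by
  rw [map_mul]
  rcases eq_or_ne (v t) 0 with h | h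
  · rw [h, mul_zero]
    exact hm
  · calc v 13 * v t < 1 * v t := by
          exact mul_lt_mul_of_pos_right h13 (zero_lt_iff.2 h)
      _ = v t := one_mul _
      _ ≤ m := ht

/-- the form `p x + q y` has the largest possible value at `(x, y)` -/
def Up (p q : ℤ) (x y : ℝ) : Prop := v ((p : ℝ) * x + q * y) = max (v x) (v y)

include hint hunit in
/-- one of two independent forms has the largest possible value -/
lemma up_or (p q p' q' : ℤ) (h : ¬ (13 : ℤ) ∣ p * q' - q * p') (x y : ℝ) (hxy : x ≠ 0 ∨ y ≠ 0) :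
    Up v p q x y ∨ Up v p' q' x y := by
  by_contra hcon
  rw [not_or] at hcon
  obtain ⟨h1, h2⟩ := hcon
  set m := max (v x) (v y) with hm
  have hx : v x ≤ m := le_max_left _ _
  have hy : v y ≤ m := le_max_right _ _
  have l1 : v ((p : ℝ) * x + q * y) < m := lt_of_le_of_ne (lin_le v hint p q hx hy) h1
  have l2 : v ((p' : ℝ) * x + q' * y) < m := lt_of_le_of_ne (lin_le v hint p' q' hx hy) h2
  have e1 : (((p * q' - q * p' : ℤ)) : ℝ) * x =
      (q' : ℝ) * ((p : ℝ) * x + q * y) + ((-q : ℤ) : ℝ) * ((p' : ℝ) * x + q' * y) := by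
    push_cast
    ring
  have e2 : (((p * q' - q * p' : ℤ)) : ℝ) * y =
      ((-p' : ℤ) : ℝ) * ((p : ℝ) * x + q * y) + (p : ℝ) * ((p' : ℝ) * x + q' * y) := by
    push_cast
    ring
  have k1 : v x < m := by
    have := lin_lt v hint q' (-q) l1 l2
    rw [← e1, map_mul, hunit _ h, one_mul] at this
    exact this
  have k2 : v y < m := by
    have := lin_lt v hint (-p') p l1 l2
    rw [← e2, map_mul, hunit _ h, one_mul] at this
    exact this
  exact absurd (max_lt k1 k2) (lt_irrefl _)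

include h13 hint in
/-- the label of an image -/
lemma lab_lt (a b c d u0 u1 p q n0 n1 n2 n3 : ℤ) (ha : a = u0 * p + 13 * n0)
    (hb : b = u0 * q + 13 * n1) (hc : c = u1 * p + 13 * n2) (hd : d = u1 * q + 13 * n3)
    (x y : ℝ) (hxy : x ≠ 0 ∨ y ≠ 0) :
    v ((u0 : ℝ) * ((c : ℝ) * x + d * y) - u1 * ((a : ℝ) * x + b * y)) < max (v x) (v y) := by
  have hm : 0 < max (v x) (v y) := by
    rcases hxy with h | h
    · exact lt_of_lt_of_le (zero_lt_iff.2 ((v.ne_zero_iff).2 h)) (le_max_left _ _)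
    · exact lt_of_lt_of_le (zero_lt_iff.2 ((v.ne_zero_iff).2 h)) (le_max_right _ _)
  have e : (u0 : ℝ) * ((c : ℝ) * x + d * y) - u1 * ((a : ℝ) * x + b * y) =
      13 * (((u0 * n2 - u1 * n0 : ℤ) : ℝ) * x + ((u0 * n3 - u1 * n1 : ℤ) : ℝ) * y) := by
    rw [ha, hb, hc, hd]
    push_cast
    ring
  rw [e]
  exact small v h13 hm (lin_le v hint _ _ (le_max_left _ _) (le_max_right _ _))

include h13 hint hunit in
lemma lab_eq (a b c d u0 u1 p q n0 n1 n2 n3 : ℤ) (ha : a = u0 * p + 13 * n0)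
    (hb : b = u0 * q + 13 * n1) (hc : c = u1 * p + 13 * n2) (hd : d = u1 * q + 13 * n3)
    (w0 w1 : ℤ) (hw : ¬ (13 : ℤ) ∣ w0 * u1 - w1 * u0)
    (x y : ℝ) (hxy : x ≠ 0 ∨ y ≠ 0) (hup : Up v p q x y) :
    v ((w0 : ℝ) * ((c : ℝ) * x + d * y) - w1 * ((a : ℝ) * x + b * y)) = max (v x) (v y) := by
  have hm : 0 < max (v x) (v y) := by
    rcases hxy with h | h
    · exact lt_of_lt_of_le (zero_lt_iff.2 ((v.ne_zero_iff).2 h)) (le_max_left _ _)
    · exact lt_of_lt_of_le (zero_lt_iff.2 ((v.ne_zero_iff).2 h)) (le_max_right _ _)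
  have e : (w0 : ℝ) * ((c : ℝ) * x + d * y) - w1 * ((a : ℝ) * x + b * y) =
      ((w0 * u1 - w1 * u0 : ℤ) : ℝ) * ((p : ℝ) * x + q * y) +
      13 * (((w0 * n2 - w1 * n0 : ℤ) : ℝ) * x + ((w0 * n3 - w1 * n1 : ℤ) : ℝ) * y) := by
    rw [ha, hb, hc, hd]
    push_cast
    ring
  have h1 : v (((w0 * u1 - w1 * u0 : ℤ) : ℝ) * ((p : ℝ) * x + q * y)) = max (v x) (v y) := by
    rw [map_mul, hunit _ hw, one_mul]
    exact hup
  have h2 := small v h13 hm (lin_le v hint (w0 * n2 - w1 * n0) (w0 * n3 - w1 * n1)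
    (le_max_left (v x) (v y)) (le_max_right (v x) (v y)))
  rw [e, v.map_add_eq_of_lt_left (by rw [h1]; exact h2), h1]

end lab

end Pool.Agent.NH23.Sq
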