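import Pool.Agent.NH23.Sq.Base

/-!
# The open unit square is paradoxical under `SL(2, ℝ)`: nine matrices
-/

set_option autoImplicit false

open Matrix

namespace Pool.Agent.NH23.Sq

/-- entries of `13` times the nine matrices -/
def ea : Fin 9 → ℤ := ![8, 9, 9, 22, 19, 19, 11, 13, 13]
def eb : Fin 9 → ℤ := ![7, 1, 2, 1, 2, 1, -1, 0, -1]
def ec : Fin 9 → ℤ := ![1, 2, 1, 7, 1, 2, -7, -1, 0]
def ed : Fin 9 → ℤ := ![22, 19, 19, 8, 9, 9, 16, 13, 13]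

/-- attractors -/
def u0 : Fin 9 → ℤ := ![1, 1, 1, 1, 1, 1, 1, 0, 1]
def u1 : Fin 9 → ℤ := ![5, 6, 3, 8, 11, 9, 10, 1, 0]

/-- forms -/
def f0 : Fin 9 → ℤ := ![8, 9, 9, 22, 19, 19, 11, -1, 0]
def f1 : Fin 9 → ℤ := ![7, 1, 2, 1, 2, 1, -1, 0, -1]

lemma dets : ∀ i, ea i * ed i - eb i * ec i = 169 := by decide

lemma red0 : ∀ i, ∃ n : ℤ, ea i = u0 i * f0 i + 13 * n := by
  intro i
  have h : ∀ i, (13 : ℤ) ∣ ea i - u0 i * f0 i := by decide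
  obtain ⟨n, hn⟩ := h i
  exact ⟨n, by linarith⟩

lemma red1 : ∀ i, ∃ n : ℤ, eb i = u0 i * f1 i + 13 * n := by
  intro i
  have h : ∀ i, (13 : ℤ) ∣ eb i - u0 i * f1 i := by decide
  obtain ⟨n, hn⟩ := h i
  exact ⟨n, by linarith⟩

lemma red2 : ∀ i, ∃ n : ℤ, ec i = u1 i * f0 i + 13 * n := by
  intro i
  have h : ∀ i, (13 : ℤ) ∣ ec i - u1 i * f0 i := by decide
  obtain ⟨n, hn⟩ := h i
  exact ⟨n, by linarith⟩

lemma red3 : ∀ i, ∃ n : ℤ, ed i = u1 i * f1 i + 13 * n := by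
  intro i
  have h : ∀ i, (13 : ℤ) ∣ ed i - u1 i * f1 i := by decide
  obtain ⟨n, hn⟩ := h i
  exact ⟨n, by linarith⟩

lemma indep : ∀ i j, i ≠ j → ¬ (13 : ℤ) ∣ u0 i * u1 j - u1 i * u0 j := by decide

/-- the matrices -/
noncomputable def G (i : Fin 9) : SpecialLinearGroup (Fin 2) ℝ :=
  ⟨!![(ea i : ℝ) / 13, (eb i : ℝ) / 13; (ec i : ℝ) / 13, (ed i : ℝ) / 13], by
    have h := dets i
    have h1 : (ea i : ℝ) * ed i - eb i * ec i = 169 := by exact_mod_cast h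
    rw [det_fin_two_of]
    linarith⟩

/-- the action -/
noncomputable def act (g : SpecialLinearGroup (Fin 2) ℝ) (x : Fin 2 → ℝ) : Fin 2 → ℝ :=
  (g : Matrix (Fin 2) (Fin 2) ℝ).mulVec x

lemma act_zero (i : Fin 9) (x : Fin 2 → ℝ) :
    act (G i) x 0 = ((ea i : ℝ) * x 0 + eb i * x 1) / 13 := by
  simp only [act, G, mulVec, dotProduct, Fin.sum_univ_two, of_apply, cons_val_zero, cons_val_one]
  ring

lemma act_one (i : Fin 9) (x : Fin 2 → ℝ) :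
    act (G i) x 1 = ((ec i : ℝ) * x 0 + ed i * x 1) / 13 := by
  simp only [act, G, mulVec, dotProduct, Fin.sum_univ_two, of_apply, cons_val_zero, cons_val_one]
  ring

lemma act_inv (g : SpecialLinearGroup (Fin 2) ℝ) (x : Fin 2 → ℝ) : act g⁻¹ (act g x) = x := by
  have h : ((g⁻¹ * g : SpecialLinearGroup (Fin 2) ℝ) : Matrix (Fin 2) (Fin 2) ℝ) = 1 := by
    rw [inv_mul_cancel]
    rfl
  have h2 : ((g⁻¹ : SpecialLinearGroup (Fin 2) ℝ) : Matrix (Fin 2) (Fin 2) ℝ) *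
      (g : Matrix (Fin 2) (Fin 2) ℝ) = 1 := h
  rw [act, act, mulVec_mulVec, h2, one_mulVec]

/-- the open square -/
def Q : Set (Fin 2 → ℝ) := {x | ∀ k, 0 < x k ∧ x k < 1}

/-- the three types -/
def tri (x : Fin 2 → ℝ) (i : Fin 9) : Prop :=
  (x 1 < 1 / 2 ∧ (i = 0 ∨ i = 1 ∨ i = 2)) ∨ (x 0 < 1 / 2 ∧ (i = 3 ∨ i = 4 ∨ i = 5)) ∨
    (1 / 2 ≤ x 0 ∧ 1 / 2 ≤ x 1 ∧ (i = 6 ∨ i = 7 ∨ i = 8))

lemma mem_Q {x : Fin 2 → ℝ} (h0 : 0 < x 0) (h1 : x 0 < 1) (h2 : 0 < x 1) (h3 : x 1 < 1) :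
    x ∈ Q := by
  intro k
  fin_cases k
  · exact ⟨h0, h1⟩
  · exact ⟨h2, h3⟩

lemma tri_mem {x : Fin 2 → ℝ} (hx : x ∈ Q) {i : Fin 9} (hi : tri x i) : act (G i) x ∈ Q := by
  obtain ⟨a0, a1⟩ := hx 0
  obtain ⟨b0, b1⟩ := hx 1
  rcases hi with ⟨h, rfl | rfl | rfl⟩ | ⟨h, rfl | rfl | rfl⟩ | ⟨h, h', rfl | rfl | rfl⟩ <;>
  · apply mem_Q <;> (first | rw [act_zero] | rw [act_one]) <;>
    simp [ea, eb, ec, ed] <;> linarith

section val

variable {Γ : Type*} [LinearOrderedCommGroupWithZero Γ] (v : Valuation ℝ Γ)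
  (h13 : v (13 : ℝ) < 1) (hint : ∀ n : ℤ, v (n : ℝ) ≤ 1)
  (hunit : ∀ n : ℤ, ¬ (13 : ℤ) ∣ n → v (n : ℝ) = 1)

lemma ne_of_mem {x : Fin 2 → ℝ} (hx : x ∈ Q) : x 0 ≠ 0 ∨ x 1 ≠ 0 := Or.inl (hx 0).1.ne'

/-- the form of the `i`-th matrix is maximal at `x` -/
def UpI (i : Fin 9) (x : Fin 2 → ℝ) : Prop := Up v (f0 i) (f1 i) (x 0) (x 1)

include hint hunit in
lemma two_of_three {x : Fin 2 → ℝ} (hx : x ∈ Q) (i j k : Fin 9) (hij : i ≠ j) (hik : i ≠ k)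
    (hjk : j ≠ k) (dij : ¬ (13 : ℤ) ∣ f0 i * f1 j - f1 i * f0 j)
    (dik : ¬ (13 : ℤ) ∣ f0 i * f1 k - f1 i * f0 k)
    (djk : ¬ (13 : ℤ) ∣ f0 j * f1 k - f1 j * f0 k) (hi : tri x i) (hj : tri x j) (hk : tri x k) :
    ∃ a b, a ≠ b ∧ UpI v a x ∧ UpI v b x ∧ tri x a ∧ tri x b := by
  have e1 := up_or v hint hunit _ _ _ _ dij (x 0) (x 1) (ne_of_mem hx)
  have e2 := up_or v hint hunit _ _ _ _ dik (x 0) (x 1) (ne_of_mem hx)
  have e3 := up_or v hint hunit _ _ _ _ djk (x 0) (x 1) (ne_of_mem hx)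
  by_cases h1 : UpI v i x
  · by_cases h2 : UpI v j x
    · exact ⟨i, j, hij, h1, h2, hi, hj⟩
    · exact ⟨i, k, hik, h1, e3.resolve_left h2, hi, hk⟩
  · exact ⟨j, k, hjk, e1.resolve_left h1, e2.resolve_left h1, hj, hk⟩

include hint hunit in
lemma exists_two {x : Fin 2 → ℝ} (hx : x ∈ Q) :
    ∃ a b, a ≠ b ∧ UpI v a x ∧ UpI v b x ∧ tri x a ∧ tri x b := by
  by_cases h1 : x 1 < 1 / 2
  · exact two_of_three v hint hunit hx 0 1 2 (by decide) (by decide) (by decide) (by decide)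
      (by decide) (by decide) (Or.inl ⟨h1, by simp⟩) (Or.inl ⟨h1, by simp⟩) (Or.inl ⟨h1, by simp⟩)
  · by_cases h0 : x 0 < 1 / 2
    · exact two_of_three v hint hunit hx 3 4 5 (by decide) (by decide) (by decide) (by decide)
        (by decide) (by decide) (Or.inr (Or.inl ⟨h0, by simp⟩)) (Or.inr (Or.inl ⟨h0, by simp⟩))
        (Or.inr (Or.inl ⟨h0, by simp⟩))
    · rw [not_lt] at h0 h1
      exact two_of_three v hint hunit hx 6 7 8 (by decide) (by decide) (by decide) (by decide)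
        (by decide) (by decide) (Or.inr (Or.inr ⟨h0, h1, by simp⟩))
        (Or.inr (Or.inr ⟨h0, h1, by simp⟩)) (Or.inr (Or.inr ⟨h0, h1, by simp⟩))

include h13 hint hunit in
/-- the image determines the matrix -/
lemma label {i j : Fin 9} {x y : Fin 2 → ℝ} (hx : x ∈ Q) (hy : y ∈ Q) (hi : UpI v i x)
    (hj : UpI v j y) (h : act (G i) x = act (G j) y) : i = j := by
  by_contra hne
  have k0 : (ea i : ℝ) * x 0 + eb i * x 1 = (ea j : ℝ) * y 0 + eb j * y 1 := by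
    have := congrFun h 0
    rw [act_zero, act_zero] at this
    linarith
  have k1 : (ec i : ℝ) * x 0 + ed i * x 1 = (ec j : ℝ) * y 0 + ed j * y 1 := by
    have := congrFun h 1
    rw [act_one, act_one] at this
    linarith
  obtain ⟨n0, a0⟩ := red0 i
  obtain ⟨n1, a1⟩ := red1 i
  obtain ⟨n2, a2⟩ := red2 i
  obtain ⟨n3, a3⟩ := red3 i
  obtain ⟨m0, b0⟩ := red0 j
  obtain ⟨m1, b1⟩ := red1 j
  obtain ⟨m2, b2⟩ := red2 j
  obtain ⟨m3, b3⟩ := red3 j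
  have l1 := lab_lt v h13 hint _ _ _ _ _ _ _ _ _ _ _ _ a0 a1 a2 a3 (x 0) (x 1) (ne_of_mem hx)
  have l2 := lab_lt v h13 hint _ _ _ _ _ _ _ _ _ _ _ _ b0 b1 b2 b3 (y 0) (y 1) (ne_of_mem hy)
  have l3 := lab_eq v h13 hint hunit _ _ _ _ _ _ _ _ _ _ _ _ a0 a1 a2 a3 (u0 j) (u1 j)
    (indep j i (Ne.symm hne)) (x 0) (x 1) (ne_of_mem hx) hi
  have l4 := lab_eq v h13 hint hunit _ _ _ _ _ _ _ _ _ _ _ _ b0 b1 b2 b3 (u0 i) (u1 i)
    (indep i j hne) (y 0) (y 1) (ne_of_mem hy) hj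
  rw [k0, k1] at l1 l3
  rw [l4] at l1
  rw [l3] at l2
  exact lt_asymm l1 l2

end val

lemma act_injective (g : SpecialLinearGroup (Fin 2) ℝ) : Function.Injective (act g) := by
  intro x y h
  have := congrArg (act g⁻¹) h
  rwa [act_inv, act_inv] at this

/-- two maps of the square into itself -/
theorem maps : ∃ φ ψ : (Fin 2 → ℝ) → Fin 9, (∀ x ∈ Q, φ x ≠ ψ x ∧ act (G (φ x)) x ∈ Q ∧
    act (G (ψ x)) x ∈ Q) ∧
    ∀ x ∈ Q, ∀ y ∈ Q, ∀ i j, (i = φ x ∨ i = ψ x) → (j = φ y ∨ j = ψ y) →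
      act (G i) x = act (G j) y → i = j ∧ x = y := by
  classical
  obtain ⟨B, h13, hint, hunit⟩ := exists_val
  have h : ∀ x : Fin 2 → ℝ, ∃ p : Fin 9 × Fin 9, x ∈ Q → p.1 ≠ p.2 ∧ UpI B.valuation p.1 x ∧
      UpI B.valuation p.2 x ∧ tri x p.1 ∧ tri x p.2 := by
    intro x
    by_cases hx : x ∈ Q
    · obtain ⟨a, b, h⟩ := exists_two B.valuation hint hunit hx
      exact ⟨(a, b), fun _ => h⟩
    · exact ⟨(0, 0), fun hx' => absurd hx' hx⟩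
  choose p hp using h
  refine ⟨fun x => (p x).1, fun x => (p x).2, fun x hx => ?_, fun x hx y hy i j hi hj hij => ?_⟩
  · obtain ⟨h1, -, -, h4, h5⟩ := hp x hx
    exact ⟨h1, tri_mem hx h4, tri_mem hx h5⟩
  · obtain ⟨-, h2, h3, -, -⟩ := hp x hx
    obtain ⟨-, k2, k3, -, -⟩ := hp y hy
    have hi' : UpI B.valuation i x := by rcases hi with rfl | rfl <;> assumption
    have hj' : UpI B.valuation j y := by rcases hj with rfl | rfl <;> assumption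
    have hij' := label B.valuation h13 hint hunit hx hy hi' hj' hij
    refine ⟨hij', ?_⟩
    subst hij'
    exact act_injective _ hij

/-- the open square is paradoxical -/
theorem main : ∃ (n m : ℕ) (A : Fin n → Set (Fin 2 → ℝ)) (B : Fin m → Set (Fin 2 → ℝ))
      (g : Fin n → SpecialLinearGroup (Fin 2) ℝ) (h : Fin m → SpecialLinearGroup (Fin 2) ℝ),
      (∀ i, A i ⊆ Q) ∧ (∀ j, B j ⊆ Q) ∧
      Pairwise (fun i i' => Disjoint (A i) (A i')) ∧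
      Pairwise (fun j j' => Disjoint (B j) (B j')) ∧
      (∀ i j, Disjoint (A i) (B j)) ∧
      (⋃ i, act (g i) '' A i) = Q ∧ (⋃ j, act (h j) '' B j) = Q := by
  obtain ⟨φ, ψ, h1, h2⟩ := maps
  have hcov : ∀ χ : (Fin 2 → ℝ) → Fin 9,
      (⋃ i, act (G i)⁻¹ '' {w | ∃ x ∈ Q, χ x = i ∧ w = act (G i) x}) = Q := by
    intro χ
    ext x
    simp only [Set.mem_iUnion, Set.mem_image, Set.mem_setOf_eq]
    constructor
    · rintro ⟨i, w, ⟨y, hy, -, rfl⟩, rfl⟩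
      rw [act_inv]
      exact hy
    · intro hx
      exact ⟨χ x, act (G (χ x)) x, ⟨x, hx, rfl, rfl⟩, act_inv _ _⟩
  refine ⟨9, 9, fun i => {w | ∃ x ∈ Q, φ x = i ∧ w = act (G i) x},
    fun i => {w | ∃ x ∈ Q, ψ x = i ∧ w = act (G i) x}, fun i => (G i)⁻¹, fun i => (G i)⁻¹,
    ?_, ?_, ?_, ?_, ?_, hcov φ, hcov ψ⟩
  · rintro i w ⟨x, hx, rfl, rfl⟩
    exact (h1 x hx).2.1
  · rintro i w ⟨x, hx, rfl, rfl⟩
    exact (h1 x hx).2.2
  · intro i j hij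
    rw [Set.disjoint_left]
    rintro w ⟨x, hx, hi, rfl⟩ ⟨y, hy, hj, hw⟩
    exact hij (h2 x hx y hy i j (Or.inl hi.symm) (Or.inl hj.symm) hw).1
  · intro i j hij
    rw [Set.disjoint_left]
    rintro w ⟨x, hx, hi, rfl⟩ ⟨y, hy, hj, hw⟩
    exact hij (h2 x hx y hy i j (Or.inr hi.symm) (Or.inr hj.symm) hw).1
  · intro i j
    rw [Set.disjoint_left]
    rintro w ⟨x, hx, hi, rfl⟩ ⟨y, hy, hj, hw⟩
    obtain ⟨e1, e2⟩ := h2 x hx y hy i j (Or.inl hi.symm) (Or.inr hj.symm) hw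
    apply (h1 x hx).1
    rw [hi, e1, ← hj, e2]

end Pool.Agent.NH23.Sq
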